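import Pool.Agent.MP_c69980_ag.H43.Spec10

/-!
The cover of the generic leaf is etale over the coordinate ring of each chart.
-/

set_option autoImplicit false

namespace Pool.Agent.MP_c69980_ag.H43

open Polynomial

/-- The restriction of a derivation to a stable subfield. -/
noncomputable def EtC_res (L : Subfield ℂ) (D : Der) (h : Pres D L) : Derivation ℤ L L :=
  Derivation.mk' (AddMonoidHom.mk' (fun y : L => (⟨D y, h y y.2⟩ : L))
    (fun a b => Subtype.ext (by simp))).toIntLinearMap
    (fun a b => Subtype.ext (by simp))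

lemma EtC_res_coe (L : Subfield ℂ) (D : Der) (h : Pres D L) (y : L) :
    ((EtC_res L D h y : L) : ℂ) = D y := rfl

open scoped IntermediateField.algebraAdjoinAdjoin in
lemma EtC_main (h1 : SNml) (h2 : SDsc) (h3 : SPrE) (h4 : SFinI) (F L : Subfield ℂ) (ι κ : Type)
    [Finite ι] (x : ι → ℂ) (δ : κ → Der) (T : Finset ℂ)
    (hT : ∀ y ∈ T, IsAlgebraic (Subfield.closure (F ∪ Set.range x : Set ℂ)) y)
    (hL : L = Subfield.closure ((Subfield.closure (F ∪ Set.range x : Set ℂ) : Set ℂ) ∪ T))
    (pk : ∀ l, Pres (δ l) L) (pR : ∀ l, Pres (δ l) (RA F x))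
    (pI : ∀ l, Pres (δ l) (ICs (RA F x) L)) (sim : Simple (RA F x) (Set.range δ)) :
    EtA (RA F x) L := by
  classical
  have hEL : Subfield.closure (F ∪ Set.range x : Set ℂ) ≤ L := fun y hy =>
    hL ▸ Subfield.subset_closure (Or.inl hy)
  have hFL : F ≤ L := fun y hy => hEL (Subfield.subset_closure (Or.inl hy))
  have hx : ∀ i, x i ∈ L := fun i => hEL (Subfield.subset_closure (Or.inr ⟨i, rfl⟩))
  let _ : Algebra F L := (Subfield.inclusion hFL).toAlgebra
  let x' : ι → L := fun i => ⟨x i, hx i⟩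
  let val : L →ₐ[F] ℂ := { L.subtype with commutes' := fun _ => rfl }
  have vinj : Function.Injective val := Subtype.val_injective
  let R' := Algebra.adjoin F (Set.range x')
  let E' := IntermediateField.adjoin F (Set.range x')
  have hR : R'.map val = RA F x := by
    rw [AlgHom.map_adjoin, ← Set.range_comp]; rfl
  let e : R' ≃ₐ[F] RA F x := (R'.equivMapOfInjective val vinj).trans (Subalgebra.equivOfEq _ _ hR)
  have he : ∀ r : R', ((e r : RA F x) : ℂ) = ((r : L) : ℂ) := fun _ => rfl
  have he' : ∀ r : RA F x, (((e.symm r : R') : L) : ℂ) = r := fun r => by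
    rw [← he, e.apply_symm_apply]
  have c1 : (algebraMap (RA F x) ℂ).comp (e : R' →+* RA F x) = L.subtype.comp (algebraMap R' L) :=
    RingHom.ext he
  have hint : ∀ y : L, IsIntegral R' y ↔ IsIntegral (RA F x) (y : ℂ) := fun y => by
    refine ⟨fun h => h.map_of_comp_eq _ _ c1, fun h => ?_⟩
    have : IsIntegral R' (y : ℂ) :=
      h.map_of_comp_eq (e.symm : RA F x →+* R') (RingHom.id ℂ) (RingHom.ext he')
    exact (isIntegral_algebraMap_iff (R := R') (A := L) (B := ℂ) Subtype.val_injective).1 this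
  have hE : E'.toSubfield.map L.subtype = Subfield.closure (F ∪ Set.range x : Set ℂ) := by
    rw [IntermediateField.adjoin_toSubfield, RingHom.map_field_closure, Set.image_union,
      ← Set.range_comp, ← Set.range_comp]
    congr 2
    exact Subtype.range_coe
  have hE1 : ∀ y : E', ((y : L) : ℂ) ∈ Subfield.closure (F ∪ Set.range x : Set ℂ) := fun y =>
    hE ▸ ⟨y, y.2, rfl⟩
  let f : E' →+* Subfield.closure (F ∪ Set.range x : Set ℂ) :=
    (L.subtype.comp (algebraMap E' L)).codRestrict _ hE1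
  have fs : Function.Surjective f := fun y => by
    obtain ⟨y', h, h'⟩ : (y : ℂ) ∈ E'.toSubfield.map L.subtype := by
      rw [hE]; exact y.2
    exact ⟨⟨y', h⟩, Subtype.ext h'⟩
  have hfd : FiniteDimensional E' L := by
    let T' : Set L := Subtype.val ⁻¹' (T : Set ℂ)
    have : Finite T' := (T.finite_toSet.preimage Subtype.val_injective.injOn).to_subtype
    have a : FiniteDimensional E' (IntermediateField.adjoin E' T') :=
      IntermediateField.finiteDimensional_adjoin fun y hy =>
        (IsAlgebraic.of_ringHom_of_comp_eq f L.subtype (hT _ hy) fs Subtype.val_injective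
          rfl).isIntegral
    have b : IntermediateField.adjoin E' T' = ⊤ := by
      refine eq_top_iff.2 fun y _ => ?_
      have : L ≤ (IntermediateField.adjoin E' T').toSubfield.map L.subtype := by
        refine hL.le.trans (Subfield.closure_le.2 (Set.union_subset (fun u hu => ?_) fun u hu => ?_))
        · obtain ⟨y', h⟩ := fs ⟨u, hu⟩
          exact ⟨_, (IntermediateField.adjoin E' T').algebraMap_mem y', congrArg Subtype.val h⟩
        · exact ⟨⟨u, hL ▸ Subfield.subset_closure (Or.inr hu)⟩,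
            IntermediateField.subset_adjoin _ _ hu, rfl⟩
      obtain ⟨y', h, h'⟩ := this y.2
      exact (Subtype.ext h' : y' = y) ▸ h
    rw [b] at a
    exact IntermediateField.topEquiv.toLinearEquiv.finiteDimensional
  let d : κ → Derivation ℤ L L := fun l => EtC_res L (δ l) (pk l)
  have ds : DS R' L d := by
    refine ⟨fun l r => ⟨e.symm ⟨δ l (e r), pR l _ (e r).2⟩, Subtype.ext (he' _)⟩,
      fun l y hy => (hint _).2 (pI l _ ⟨y.2, (hint y).1 hy⟩).2, fun I hI => ?_⟩
    have := sim (I.comap (e.symm : RA F x →+* R')) (by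
      rintro _ ⟨l, rfl⟩ r hr y hy
      refine hI l _ hr _ (Subtype.ext ?_)
      exact (he' y).trans (hy.trans (congrArg (δ l) (he' r).symm)))
    refine this.imp (fun h => eq_bot_iff.2 fun r hr => ?_) fun h => ?_
    · have : e r ∈ I.comap (e.symm : RA F x →+* R') := by simpa using hr
      rw [h] at this
      simpa using this
    · exact Ideal.comap_eq_top_iff.1 h
  have : Algebra.FiniteType F R' :=
    (Subalgebra.fg_iff_finiteType _).1 (Subalgebra.fg_def.2 ⟨_, Set.finite_range x', rfl⟩)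
  have : IsNoetherianRing R' := Algebra.FiniteType.isNoetherianRing F R'
  have : IsIntegrallyClosed R' := h1 R' E' L κ d ds (h4 F L ι x' hfd)
  have : CharZero E' := algebraRat.charZero _
  intro ξ
  let ξ' : R' →+* ℂ := (ξ : RA F x →+* ℂ).comp (e : R' →+* RA F x)
  obtain ⟨v, b, hv, hb, hb'⟩ := h2 R' E' L κ d ds (RingHom.ker ξ') (RingHom.ker_isPrime _)
  obtain ⟨θ, P, b', a1, a2, a3, a4, a5, a6, a7⟩ := h3 R' E' L ξ' v b hv hb hb'
  have ev : ∀ Q : R'[X], ((aeval θ Q : L) : ℂ) = aeval (θ : ℂ) (Q.map (e : R' →+* RA F x)) :=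
    fun Q => map_aeval_eq_aeval_map c1 Q θ
  refine ⟨θ, P.map (e : R' →+* RA F x), e b', ⟨⟨θ.2, (hint θ).1 a1⟩, a2.map _, ?_, fun Q hQ => ?_,
    fun y hy => ?_⟩, a6, by rwa [Polynomial.map_map]⟩
  · rw [← ev, a3]; rfl
  · have hq : (Q.map (e.symm : RA F x →+* R')).map (e : R' →+* RA F x) = Q := by
      ext1 i
      rw [coeff_map, coeff_map]
      exact e.apply_symm_apply _
    rw [← hq] at hQ ⊢
    exact Polynomial.map_dvd _ (a4 _ (Subtype.ext ((ev _).trans hQ)))
  · obtain ⟨Q, hQ⟩ := a7 ⟨y, hy.1⟩ ((hint _).2 hy.2)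
    exact ⟨_, (congrArg Subtype.val hQ).trans (ev Q)⟩

theorem sEtC (h1 : SNml) (h2 : SDsc) (h3 : SPrE) (h4 : SFinI) (h5 : SVs) (h6 : SPres) : SEtC := by
  intro t a M n w Θ PP K _ _ U z u k F L p₀ m lam δ z₀ h β hβ
  obtain ⟨T, hT, hL⟩ := h.fin
  rw [FL_chart hβ] at hT hL
  exact EtC_main h1 h2 h3 h4 F L _ _ _ δ T hT hL h.pk
    (fun l => ((h6 t a M w Θ PP k F (δ l) p₀ (lam l) h.gd h.le (h.axo.tan l)).2.2
      (fun i => h.le (h.axo.mem l i)) (h.axo.kill l).pres β hβ).1)
    (h.pres β hβ) (h5 t a M w Θ PP k F p₀ _ lam δ h.gd h.le h.cnt h.axo β hβ)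

end Pool.Agent.MP_c69980_ag.H43
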